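import Pool.Agent.helper38.VA.Spec

/-!
# Row va:CL3
-/

set_option autoImplicit false

namespace Pool.Agent.VA

open Matrix Module Pool.Agent.PR Pool.Agent.H48SL

theorem CL3_rank0 (X : MQ 3) (h : X.rank = 0) : X = 0 := by
  have h1 : LinearMap.range X.mulVecLin = ⊥ := by
    unfold Matrix.rank at h
    exact Submodule.finrank_eq_zero.1 h
  have h2 : X.mulVecLin = 0 := LinearMap.range_eq_bot.1 h1
  have h3 : ∀ v, X *ᵥ v = 0 := fun v => by
    have := LinearMap.congr_fun h2 v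
    rwa [Matrix.mulVecLin_apply, LinearMap.zero_apply] at this
  ext i j
  have h4 := congrFun (h3 (Pi.single j 1)) i
  rw [Matrix.mulVec_single_one] at h4
  exact h4

theorem CL3 (hCLA : CLA_stmt) (hCLB : CLB_stmt) (hCLN : CLN_stmt) : CL3_stmt := by
  intro H W b hS
  obtain ⟨hA1, hA2⟩ := hCLA 3 H W b hS
  have hsta : Sta b (WI W ⊤) := hA1 ⊤ (fun v _ => Submodule.mem_top)
  have hgen : ∀ X ∈ W, ∀ v : Fin 3 → ℚ, X *ᵥ v ∈ WI W ⊤ := fun X hX v =>
    Submodule.subset_span ⟨X, hX, v, Submodule.mem_top, rfl⟩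
  have htop : (⊤ : Submodule ℚ (Fin 3 → ℚ)) ≠ ⊥ := top_ne_bot
  have hlt : WI W ⊤ < ⊤ := hCLN 3 W hS.nil hS.com ⊤ htop (fun X _ v _ => Submodule.mem_top)
  have hd3 : finrank ℚ (Fin 3 → ℚ) = 3 := by rw [finrank_fin_fun]
  have hd : finrank ℚ (WI W ⊤) ≤ 2 := by
    have h := Submodule.finrank_lt hlt.ne
    rw [hd3] at h
    omega
  obtain ⟨X, hX, hX0, hk⟩ := hCLB 3 W hS.nil hS.com hS.two (WI W ⊤) hd
    (fun X hX v _ => hgen X hX v)
  refine ⟨X, hX, ?_⟩
  have h0 : X.rank ≠ 0 := fun h => hX0 (CL3_rank0 X h)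
  have h1 : X.rank ≤ finrank ℚ (WI W ⊤) := by
    unfold Matrix.rank
    refine Submodule.finrank_mono ?_
    rintro _ ⟨v, rfl⟩
    exact hgen X hX v
  have h2 : finrank ℚ (WI W ⊤) ≤ finrank ℚ (LinearMap.ker X.mulVecLin) := by
    refine Submodule.finrank_mono ?_
    intro v hv
    rw [LinearMap.mem_ker, Matrix.mulVecLin_apply]
    exact hk v hv
  have h3 : X.rank + finrank ℚ (LinearMap.ker X.mulVecLin) = 3 := by
    have h := LinearMap.finrank_range_add_finrank_ker X.mulVecLin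
    rw [hd3] at h
    exact h
  omega

end Pool.Agent.VA
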